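import Mathlib
import Pool.Agent.MP_f244e7_gt.Defs
import Pool.Agent.MP_f244e7_gt.Main

namespace Pool.Agent.Results.MP_f244e7_gt.InvariantReps

open Pool.Agent.MP_f244e7_gt
open scoped Manifold ContDiff TensorProduct

theorem result (E : Type) [NormedAddCommGroup E] [NormedSpace ℝ E] [FiniteDimensional ℝ E]
    [CompleteSpace E]
    (G : Type) [Group G] [TopologicalSpace G] [ChartedSpace E G] [LieGroup 𝓘(ℝ, E) ∞ G]
    [LieGroup 𝓘(ℝ, E) (minSmoothness ℝ 3) G]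
    [T2Space G] [CompactSpace G] [ConnectedSpace G]
    (v : LieSubalgebra ℂ (ℂ ⊗[ℝ] GroupLieAlgebra 𝓘(ℝ, E) G))
    (hv : IsElliptic (v : Set (ℂ ⊗[ℝ] GroupLieAlgebra 𝓘(ℝ, E) G))) (p q : ℕ) :
    HasInvariantReps E G (leftDeriv E) (v : Set (ℂ ⊗[ℝ] GroupLieAlgebra 𝓘(ℝ, E) G)) p q := by
  have : IsTopologicalGroup G := topologicalGroup_of_lieGroup 𝓘(ℝ, E) ∞
  borelize G
  refine main_abstract (g := GroupLieAlgebra 𝓘(ℝ, E) G) (LinearEquiv.refl ℝ E)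
    (fun X Y => (bracket_eq X Y).symm) v hv _ (fun φ hφ x z => ?_) p q
  rw [leftDeriv]
  congr 2
  exact LinearMap.ext fun X => mvfderiv_eq_LD hφ x X

end Pool.Agent.Results.MP_f244e7_gt.InvariantReps
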